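import Mathlib
import Pool.Agent.V11131.ParTree

set_option autoImplicit false

namespace Pool.Agent.Results.MP_8bd6c4_co.SecondRatio

open Pool.Agent.V11131.ParTree

/-- `τ(G)`: the least `k` such that the edges of `G` can be partitioned into the edge sets of `k`
subgraphs of `G` that are trees. -/
noncomputable def tau {V : Type} (G : SimpleGraph V) : ℕ :=
  sInf {k | ∃ f : Fin k → G.Subgraph, (∀ i, (f i).coe.IsTree) ∧
    ∀ e ∈ G.edgeSet, ∃! i, e ∈ (f i).edgeSet}

/-- `τ'(G)`: the least `k` such that the vertices of `G` can be partitioned into `k` sets each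
of which induces a tree. -/
noncomputable def tauPrime {V : Type} (G : SimpleGraph V) : ℕ :=
  sInf {k | ∃ c : V → Fin k, ∀ i, (G.induce {v | c v = i}).IsTree}

/-- The maximum of `τ'(G) / (τ(G) n)` over the connected graphs `G` with `n` vertices and at
least one edge. -/
noncomputable def maxRatio (n : ℕ) : ℝ :=
  sSup {r : ℝ | ∃ (V : Type) (_ : Fintype V) (G : SimpleGraph V), Fintype.card V = n ∧
    G.Connected ∧ G.edgeSet.Nonempty ∧ r = (tauPrime G : ℝ) / ((tau G : ℝ) * (n : ℝ))}

section Split

variable {V : Type}

theorem star_tree (G : SimpleGraph V) (X : Set V) (c : V) (hc : c ∈ X)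
    (h : ∀ a ∈ X, ∀ b ∈ X, G.Adj a b ↔ a ≠ b ∧ (a = c ∨ b = c)) : (G.induce X).IsTree := by
  have h1 : G.induce X = SimpleGraph.starGraph (⟨c, hc⟩ : X) := by
    ext a b
    rw [SimpleGraph.starGraph_adj]
    have h2 := h a.1 a.2 b.1 b.2
    constructor
    · intro hab
      obtain ⟨h3, h4⟩ := h2.1 hab
      refine ⟨fun h => h3 (congrArg Subtype.val h), ?_⟩
      rcases h4 with h4 | h4
      · exact Or.inl (Subtype.ext h4)
      · exact Or.inr (Subtype.ext h4)
    · rintro ⟨h3, h4⟩
      apply h2.2
      refine ⟨fun h => h3 (Subtype.ext h), ?_⟩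
      rcases h4 with h4 | h4
      · exact Or.inl (congrArg Subtype.val h4)
      · exact Or.inr (congrArg Subtype.val h4)
  rw [h1]
  exact SimpleGraph.isTree_starGraph _

theorem exists_split [Finite V] (G : SimpleGraph V) (hG : G.Connected) (r x0 : V) (hx0 : x0 ≠ r) :
    ∃ X : Set V, (∃ a ∈ X, ∃ b ∈ X, a ≠ b) ∧ (G.induce X).IsTree ∧
      (X = Set.univ ∨ (G.induce Xᶜ).Connected) := by
  classical
  -- parents
  have hpar : ∀ w : V, ∃ q : V, w ≠ r → G.Adj w q ∧ G.dist q r + 1 = G.dist w r := by
    intro w
    by_cases hw : w = r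
    · exact ⟨w, fun h => absurd hw h⟩
    · obtain ⟨p, hp⟩ := hG.exists_walk_length_eq_dist w r
      cases p with
      | nil => exact absurd rfl hw
      | @cons _ q _ h p' =>
        refine ⟨q, fun _ => ⟨h, ?_⟩⟩
        rw [SimpleGraph.Walk.length_cons] at hp
        have h1 : G.dist q r ≤ p'.length := SimpleGraph.dist_le p'
        have h2 : G.dist w r ≤ G.dist w q + G.dist q r := hG.dist_triangle
        have h3 : G.dist w q = 1 := SimpleGraph.dist_eq_one_iff_adj.2 h
        omega
  choose p hp using hpar
  set d : V → ℕ := fun v => G.dist v r with hd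
  have hdr : d r = 0 := by simp [hd]
  have hd0 : ∀ v, d v = 0 → v = r := by
    intro v hv
    exact (hG.dist_eq_zero_iff).1 hv
  -- connectivity after removing a set closed under children
  have hconn : ∀ X : Set V, r ∉ X → (∀ w, w ∉ X → w ≠ r → p w ∉ X) →
      (G.induce Xᶜ).Connected := by
    intro X hrX hX
    have key : ∀ n : ℕ, ∀ w (hw : w ∈ Xᶜ), d w = n →
        (G.induce Xᶜ).Reachable ⟨w, hw⟩ ⟨r, hrX⟩ := by
      intro n
      induction n using Nat.strong_induction_on with
      | _ n ih =>
        intro w hw hdw
        by_cases hwr : w = r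
        · subst hwr; exact SimpleGraph.Reachable.refl _
        · have h1 := hp w hwr
          have h2 := hX w hw hwr
          have hadj : (G.induce Xᶜ).Adj ⟨w, hw⟩ ⟨p w, h2⟩ := h1.1
          have h3 : d (p w) + 1 = d w := h1.2
          exact hadj.reachable.trans (ih (d (p w)) (by omega) (p w) h2 rfl)
    have : Nonempty (Xᶜ : Set V) := ⟨⟨r, hrX⟩⟩
    exact ⟨fun u v => (key _ u.1 u.2 rfl).trans (key _ v.1 v.2 rfl).symm⟩
  -- a deepest vertex
  have : Nonempty V := ⟨r⟩
  obtain ⟨x, hx⟩ := Finite.exists_max d
  have hxr : x ≠ r := by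
    intro h
    have h1 := hx x0
    rw [h, hdr] at h1
    exact hx0 (hd0 x0 (Nat.le_zero.1 h1))
  have hxp := hp x hxr
  set y := p x with hy
  have hdx : d y + 1 = d x := hxp.2
  set Ch : Set V := {z | z ≠ r ∧ p z = y} with hCh
  have hChd : ∀ z ∈ Ch, d z = d x := by
    intro z hz
    have h1 := (hp z hz.1).2
    rw [hz.2] at h1
    change d y + 1 = d z at h1
    omega
  have hxCh : x ∈ Ch := ⟨hxr, rfl⟩
  by_cases hcase : ∃ z ∈ Ch, ∃ z' ∈ Ch, G.Adj z z'
  · obtain ⟨z, hz, z', hz', hadj⟩ := hcase
    refine ⟨{z, z'}, ⟨z, by simp, z', by simp, hadj.ne⟩, ?_, Or.inr ?_⟩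
    · apply star_tree G _ z (by simp)
      intro a ha b hb
      rw [Set.mem_insert_iff, Set.mem_singleton_iff] at ha hb
      rcases ha with rfl | rfl <;> rcases hb with rfl | rfl
      · simp
      · exact ⟨fun h => ⟨h.ne, Or.inl rfl⟩, fun _ => hadj⟩
      · exact ⟨fun h => ⟨h.ne, Or.inr rfl⟩, fun _ => hadj.symm⟩
      · simp
    · apply hconn
      · rw [Set.mem_insert_iff, Set.mem_singleton_iff, not_or]
        exact ⟨hz.1.symm, hz'.1.symm⟩
      · intro w hw hwr hpw
        have h1 : d (p w) = d x := by
          rw [Set.mem_insert_iff, Set.mem_singleton_iff] at hpw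
          rcases hpw with h | h
          · rw [h]; exact hChd z hz
          · rw [h]; exact hChd z' hz'
        have h2 : d (p w) + 1 = d w := (hp w hwr).2
        have h3 := hx w
        omega
  · push Not at hcase
    refine ⟨insert y Ch, ⟨x, Set.mem_insert_of_mem _ hxCh, y, Set.mem_insert _ _, hxp.1.ne⟩,
      ?_, ?_⟩
    · apply star_tree G _ y (Set.mem_insert _ _)
      intro a ha b hb
      rw [Set.mem_insert_iff] at ha hb
      constructor
      · intro h
        refine ⟨h.ne, ?_⟩
        rcases ha with ha | ha
        · exact Or.inl ha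
        · rcases hb with hb | hb
          · exact Or.inr hb
          · exact absurd h (hcase a ha b hb)
      · rintro ⟨hne, h | h⟩
        · rcases hb with hb | hb
          · exact absurd (h.trans hb.symm) hne
          · have := (hp b hb.1).1
            rw [hb.2] at this
            rw [h]
            exact this.symm
        · rcases ha with ha | ha
          · exact absurd (ha.trans h.symm) hne
          · have := (hp a ha.1).1
            rw [ha.2] at this
            rw [h]
            exact this
    · by_cases hyr : y = r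
      · left
        rw [Set.eq_univ_iff_forall]
        intro w
        by_cases hwr : w = r
        · rw [hwr, ← hyr]; exact Set.mem_insert _ _
        · refine Set.mem_insert_of_mem _ ⟨hwr, ?_⟩
          have h1 : d (p w) + 1 = d w := (hp w hwr).2
          have h2 := hx w
          have h3 : d y = 0 := by rw [hyr]; exact hdr
          rw [hyr]
          exact hd0 _ (by omega)
      · right
        apply hconn
        · rw [Set.mem_insert_iff, not_or]
          exact ⟨fun h => hyr h.symm, fun h => h.1 rfl⟩
        · intro w hw hwr hpw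
          rw [Set.mem_insert_iff] at hpw
          rcases hpw with h | h
          · exact hw (Set.mem_insert_of_mem _ ⟨hwr, h⟩)
          · have h1 := hChd _ h
            have h2 : d (p w) + 1 = d w := (hp w hwr).2
            have h3 := hx w
            omega

end Split

/-- Every connected graph on `n` vertices can be partitioned into at most `(n + 1) / 2` induced
trees. -/
theorem foregger (n : ℕ) : ∀ (V : Type) [Fintype V] (G : SimpleGraph V), Fintype.card V = n →
    (G.Connected ∨ IsEmpty V) →
    ∃ k, k ≤ (n + 1) / 2 ∧ ∃ c : V → Fin k, ∀ i, (G.induce {v | c v = i}).IsTree := by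
  classical
  induction n using Nat.strong_induction_on with
  | _ n ih =>
    intro V _ G hcard hG
    rcases hG with hG | hemp
    · rcases Nat.lt_or_ge n 2 with hn | hn
      · -- one vertex
        have hne : Nonempty V := hG.nonempty
        have hpos : 0 < Fintype.card V := Fintype.card_pos
        have hn1 : n = 1 := by omega
        have hsub : Subsingleton V := Fintype.card_le_one_iff_subsingleton.1 (by omega)
        refine ⟨1, by omega, fun _ => 0, ?_⟩
        intro i
        have hi : i = 0 := Subsingleton.elim _ _
        subst hi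
        obtain ⟨v⟩ := hne
        have : Nonempty {v : V | (fun _ => (0 : Fin 1)) v = 0} := ⟨⟨v, rfl⟩⟩
        exact SimpleGraph.IsTree.of_subsingleton
      · obtain ⟨r⟩ := hG.nonempty
        have : Nontrivial V := Fintype.one_lt_card_iff_nontrivial.1 (by omega)
        obtain ⟨x0, hx0⟩ := exists_ne r
        obtain ⟨X, ⟨a, ha, b, hb, hab⟩, hX, hX2⟩ := exists_split G hG r x0 hx0
        rcases hX2 with hu | hconn
        · refine ⟨1, by omega, fun _ => 0, ?_⟩
          intro i
          have hi : i = 0 := Subsingleton.elim _ _
          subst hi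
          have : {v : V | (fun _ => (0 : Fin 1)) v = 0} = X := by
            rw [hu]; ext v; simp
          rw [this]
          exact hX
        · have hXc : 2 ≤ Fintype.card X := by
            rw [← Set.toFinset_card]
            have : ({a, b} : Finset V) ⊆ X.toFinset := by
              intro v hv
              rw [Finset.mem_insert, Finset.mem_singleton] at hv
              rw [Set.mem_toFinset]
              rcases hv with rfl | rfl <;> assumption
            have h1 := Finset.card_le_card this
            rwa [Finset.card_pair hab] at h1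
          have hcc : Fintype.card (Xᶜ : Set V) = n - Fintype.card X := by
            rw [Fintype.card_compl_set, hcard]
          obtain ⟨k, hk, c, hc⟩ := ih (n - Fintype.card X) (by omega) (Xᶜ : Set V)
            (G.induce Xᶜ) hcc (Or.inl hconn)
          let c' : V → Fin (k + 1) := fun v =>
            if h : v ∈ X then Fin.last k else (c ⟨v, h⟩).castSucc
          have hcX : ∀ v, v ∈ X → c' v = Fin.last k := by
            intro v hv
            simp [c', hv]
          have hcN : ∀ v (hv : v ∉ X), c' v = (c ⟨v, hv⟩).castSucc := by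
            intro v hv
            simp [c', hv]
          refine ⟨k + 1, by omega, c', ?_⟩
          intro i
          refine Fin.lastCases ?_ (fun j => ?_) i
          · have : {v : V | c' v = Fin.last k} = X := by
              ext v
              constructor
              · intro hv
                by_contra hvX
                rw [Set.mem_ofPred_eq, hcN v hvX] at hv
                exact (Fin.castSucc_lt_last _).ne hv
              · intro hv
                exact hcX v hv
            rw [this]
            exact hX
          · have hmem : ∀ v, c' v = j.castSucc → ∃ hv : v ∈ Xᶜ, c ⟨v, hv⟩ = j := by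
              intro v hv
              by_cases hvX : v ∈ X
              · rw [hcX v hvX] at hv
                exact absurd hv.symm (Fin.castSucc_lt_last _).ne
              · refine ⟨hvX, ?_⟩
                rw [hcN v hvX] at hv
                exact Fin.castSucc_injective _ hv
            let e : {v : V | c' v = j.castSucc} ≃ {w : (Xᶜ : Set V) | c w = j} :=
              { toFun := fun v => ⟨⟨v.1, (hmem v.1 v.2).choose⟩, (hmem v.1 v.2).choose_spec⟩
                invFun := fun w => ⟨w.1.1, by
                  have h1 := hcN w.1.1 w.1.2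
                  have h2 : c w.1 = j := w.2
                  rw [Set.mem_ofPred_eq, h1]
                  congr 1⟩
                left_inv := fun v => rfl
                right_inv := fun w => rfl }
            have iso : G.induce {v : V | c' v = j.castSucc} ≃g
                (G.induce Xᶜ).induce {w : (Xᶜ : Set V) | c w = j} :=
              ⟨e, Iff.rfl⟩
            exact iso.isTree_iff.2 (hc j)
    · refine ⟨0, Nat.zero_le _, fun v => (hemp.false v).elim, ?_⟩
      intro i
      exact i.elim0

theorem tauPrime_le {V : Type} [Fintype V] (G : SimpleGraph V) (hG : G.Connected) :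
    tauPrime G ≤ (Fintype.card V + 1) / 2 := by
  obtain ⟨k, hk, c, hc⟩ := foregger _ V G rfl (Or.inl hG)
  have hmem : k ∈ {k | ∃ c : V → Fin k, ∀ i, (G.induce {v | c v = i}).IsTree} := ⟨c, hc⟩
  exact (Nat.sInf_le hmem).trans hk

theorem tauPrime_tree {V : Type} (G : SimpleGraph V) (hG : G.IsTree) : tauPrime G ≤ 1 := by
  apply Nat.sInf_le
  refine ⟨fun _ => 0, ?_⟩
  intro i
  have hi : i = 0 := Subsingleton.elim _ _
  subst hi
  have : {v : V | (fun _ => (0 : Fin 1)) v = 0} = Set.univ := by ext v; simp
  rw [this]
  exact (SimpleGraph.induceUnivIso G).isTree_iff.2 hG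

theorem tree_of_tau_one {V : Type} [Nontrivial V] (G : SimpleGraph V) (hG : G.Connected)
    (h : tau G = 1) : G.IsTree := by
  have hne : {k | ∃ f : Fin k → G.Subgraph, (∀ i, (f i).coe.IsTree) ∧
      ∀ e ∈ G.edgeSet, ∃! i, e ∈ (f i).edgeSet}.Nonempty := by
    by_contra hcon
    rw [Set.not_nonempty_iff_eq_empty] at hcon
    unfold tau at h
    rw [hcon, Nat.sInf_empty] at h
    exact absurd h (by norm_num)
  have hmem := Nat.sInf_mem hne
  change tau G ∈ _ at hmem
  rw [h] at hmem
  obtain ⟨f, hf, he⟩ := hmem
  have hall : ∀ a b, G.Adj a b → (f 0).Adj a b := by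
    intro a b hab
    obtain ⟨i, hi, -⟩ := he s(a, b) hab
    have : i = 0 := Subsingleton.elim _ _
    rw [this] at hi
    exact hi
  have hverts : ∀ v, v ∈ (f 0).verts := by
    intro v
    obtain ⟨w, hw⟩ := hG.preconnected.exists_adj_of_nontrivial v
    exact (hall v w hw).fst_mem
  refine ⟨hG, ?_⟩
  let φ : G →g (f 0).coe := ⟨fun v => ⟨v, hverts v⟩, fun {a b} hab => hall a b hab⟩
  exact (hf 0).isAcyclic.comap φ (fun a b hab => congrArg Subtype.val hab)

/-- Upper bound for the ratio. -/
theorem ratio_le {V : Type} [Fintype V] (G : SimpleGraph V) (hG : G.Connected)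
    (he : G.edgeSet.Nonempty) :
    (tauPrime G : ℝ) / ((tau G : ℝ) * (Fintype.card V : ℝ)) ≤
      1 / 4 + 1 / (Fintype.card V : ℝ) := by
  obtain ⟨e, he⟩ := he
  have : Nontrivial V := by
    induction e with
    | h a b => exact ⟨a, b, (show G.Adj a b from he).ne⟩
  have hn : 0 < (Fintype.card V : ℝ) := by
    have : 0 < Fintype.card V := Fintype.card_pos
    exact_mod_cast this
  have hpos : 0 ≤ 1 / 4 + 1 / (Fintype.card V : ℝ) := by positivity
  rcases Nat.lt_or_ge (tau G) 2 with h | h
  · rcases Nat.eq_zero_or_pos (tau G) with h0 | h0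
    · rw [h0]
      simp only [Nat.cast_zero, zero_mul, div_zero]
      exact hpos
    · have h1 : tau G = 1 := by omega
      have h2 := tauPrime_tree G (tree_of_tau_one G hG h1)
      rw [h1]
      have h3 : (tauPrime G : ℝ) ≤ 1 := by exact_mod_cast h2
      calc (tauPrime G : ℝ) / (((1 : ℕ) : ℝ) * (Fintype.card V : ℝ))
          ≤ 1 / (((1 : ℕ) : ℝ) * (Fintype.card V : ℝ)) := by
            apply div_le_div_of_nonneg_right h3
            positivity
        _ ≤ _ := by
            rw [Nat.cast_one, one_mul]
            linarith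
  · have h1 := tauPrime_le G hG
    have h2 : (tauPrime G : ℝ) ≤ ((Fintype.card V : ℝ) + 1) / 2 := by
      have h3 : 2 * tauPrime G ≤ Fintype.card V + 1 := by omega
      have h4 : (2 : ℝ) * tauPrime G ≤ (Fintype.card V : ℝ) + 1 := by exact_mod_cast h3
      linarith
    have h3 : (2 : ℝ) ≤ (tau G : ℝ) := by exact_mod_cast h
    rw [div_le_iff₀ (by positivity)]
    have h4 : (1 / 4 + 1 / (Fintype.card V : ℝ)) * ((tau G : ℝ) * (Fintype.card V : ℝ)) =
        (tau G : ℝ) * ((Fintype.card V : ℝ) / 4 + 1) := by
      field_simp
    rw [h4]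
    nlinarith

section Windmill

/-- The friendship graph with `k` triangles. -/
def mill (k : ℕ) : SimpleGraph (Option (Fin k × Bool)) where
  Adj
    | none, none => False
    | none, some _ => True
    | some _, none => True
    | some a, some b => a.1 = b.1 ∧ a.2 ≠ b.2
  symm := ⟨fun a b h => by
    cases a <;> cases b
    · exact h
    · trivial
    · trivial
    · exact ⟨h.1.symm, h.2.symm⟩⟩
  loopless := ⟨fun a h => by
    cases a
    · exact h
    · exact h.2 rfl⟩

theorem mill_connected (k : ℕ) : (mill k).Connected := by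
  have h : ∀ v, (mill k).Reachable v none := by
    intro v
    cases v with
    | none => exact SimpleGraph.Reachable.refl _
    | some a =>
      have : (mill k).Adj (some a) none := trivial
      exact this.reachable
  have : Nonempty (Option (Fin k × Bool)) := ⟨none⟩
  exact ⟨fun u v => (h u).trans (h v).symm⟩

theorem reachable_const {V C : Type} (G : SimpleGraph V) (c : V → C)
    (hc : ∀ a b, G.Adj a b → c a = c b) {a b : V} (h : G.Reachable a b) : c a = c b := by
  obtain ⟨p⟩ := h
  induction p with
  | nil => rfl
  | cons hadj p ih => exact (hc _ _ hadj).trans ih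

theorem mill_ge (k m : ℕ) (c : Option (Fin k × Bool) → Fin m)
    (hc : ∀ i, ((mill k).induce {v | c v = i}).IsTree) : k + 1 ≤ m := by
  classical
  have hb : ∀ i : Fin k, ∃ b : Bool, c (some (i, b)) ≠ c none := by
    intro i
    by_contra hcon
    push Not at hcon
    have hfree := (hc (c none)).isAcyclic.cliqueFree (le_refl 3)
    refine hfree {⟨none, rfl⟩, ⟨some (i, false), hcon false⟩, ⟨some (i, true), hcon true⟩} ?_
    rw [SimpleGraph.is3Clique_triple_iff]
    exact ⟨trivial, trivial, rfl, by simp⟩
  choose b hb using hb
  let g : Option (Fin k) → Fin m := fun o => o.elim (c none) fun i => c (some (i, b i))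
  have hg : Function.Injective g := by
    intro o o' h
    cases o with
    | none =>
      cases o' with
      | none => rfl
      | some j => exact absurd h.symm (hb j)
    | some i =>
      cases o' with
      | none => exact absurd h (hb i)
      | some j =>
        have hij : c (some (i, b i)) = c (some (j, b j)) := h
        have hr := (hc (c (some (j, b j)))).connected.preconnected
          ⟨some (i, b i), hij⟩ ⟨some (j, b j), rfl⟩
        have := reachable_const ((mill k).induce {v | c v = c (some (j, b j))})
          (fun v => v.1.map Prod.fst) (by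
            rintro ⟨x, hx⟩ ⟨y, hy⟩ hxy
            cases x with
            | none => exact absurd hx.symm (hb j)
            | some x =>
              cases y with
              | none => exact absurd hy.symm (hb j)
              | some y =>
                have h1 : x.1 = y.1 := hxy.1
                simp [h1]) hr
        simpa using this
  have := Fintype.card_le_of_injective g hg
  simpa using this

theorem mill_tauPrime (k : ℕ) : k + 1 ≤ tauPrime (mill k) := by
  have hne : {m | ∃ c : Option (Fin k × Bool) → Fin m,
      ∀ i, ((mill k).induce {v | c v = i}).IsTree}.Nonempty := by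
    obtain ⟨m, -, c, hc⟩ := foregger _ _ (mill k) rfl (Or.inl (mill_connected k))
    exact ⟨m, c, hc⟩
  obtain ⟨c, hc⟩ := Nat.sInf_mem hne
  exact mill_ge k _ c hc

/-- Parents in the spanning spider of the friendship graph. -/
def mpar (k : ℕ) : Option (Fin k × Bool) → Option (Option (Fin k × Bool))
  | none => none
  | some (_, false) => some none
  | some (i, true) => some (some (i, false))

/-- Levels in the spanning spider. -/
def mlvl (k : ℕ) : Option (Fin k × Bool) → ℕ
  | none => 0
  | some (_, false) => 1
  | some (_, true) => 2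

theorem mh (k : ℕ) : ∀ x y, mpar k x = some y → mlvl k x = mlvl k y + 1 := by
  rintro (_ | ⟨i, _ | _⟩) y h <;> simp only [mpar] at h
  · exact absurd h (by simp)
  · rw [← Option.some_injective _ h]; rfl
  · rw [← Option.some_injective _ h]; rfl

/-- The spanning spider. -/
abbrev spider (k : ℕ) : SimpleGraph (Option (Fin k × Bool)) := ofPar (mpar k) (mlvl k) (mh k)

theorem spider_le (k : ℕ) : spider k ≤ mill k := by
  have h : ∀ x y, mpar k x = some y → (mill k).Adj x y := by
    rintro (_ | ⟨i, _ | _⟩) y h <;> simp only [mpar] at h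
    · exact absurd h (by simp)
    · rw [← Option.some_injective _ h]; trivial
    · rw [← Option.some_injective _ h]; exact ⟨rfl, by simp⟩
  intro x y hxy
  rcases hxy with hxy | hxy
  · exact h x y hxy
  · exact (h y x hxy).symm

/-- The remaining star. -/
def starSub (k : ℕ) : (mill k).Subgraph where
  verts := {v | v = none ∨ ∃ i, v = some (i, true)}
  Adj a b := (a = none ∧ ∃ i, b = some (i, true)) ∨ (b = none ∧ ∃ i, a = some (i, true))
  adj_sub := by
    rintro a b (⟨rfl, i, rfl⟩ | ⟨rfl, i, rfl⟩)
    · trivial
    · trivial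
  edge_vert := by
    rintro a b (⟨rfl, i, rfl⟩ | ⟨rfl, i, rfl⟩)
    · exact Or.inl rfl
    · exact Or.inr ⟨i, rfl⟩
  symm := ⟨by
    rintro a b (⟨rfl, i, rfl⟩ | ⟨rfl, i, rfl⟩)
    · exact Or.inr ⟨rfl, i, rfl⟩
    · exact Or.inl ⟨rfl, i, rfl⟩⟩

theorem starSub_tree (k : ℕ) : (starSub k).coe.IsTree := by
  have h1 : (starSub k).coe = SimpleGraph.starGraph (⟨none, Or.inl rfl⟩ : (starSub k).verts) := by
    ext ⟨a, ha⟩ ⟨b, hb⟩
    rw [SimpleGraph.starGraph_adj]
    constructor
    · rintro (⟨h1, i, h2⟩ | ⟨h1, i, h2⟩)
      · simp only at h1 h2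
        subst h1 h2
        exact ⟨by simp, Or.inl rfl⟩
      · simp only at h1 h2
        subst h1 h2
        exact ⟨by simp, Or.inr rfl⟩
    · rintro ⟨hne, h | h⟩
      · have h' : a = none := congrArg Subtype.val h
        subst h'
        rcases hb with rfl | ⟨i, rfl⟩
        · exact absurd rfl hne
        · exact Or.inl ⟨rfl, i, rfl⟩
      · have h' : b = none := congrArg Subtype.val h
        subst h'
        rcases ha with rfl | ⟨i, rfl⟩
        · exact absurd rfl hne
        · exact Or.inr ⟨rfl, i, rfl⟩
  rw [h1]
  exact SimpleGraph.isTree_starGraph _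

theorem mill_tau_mem (k : ℕ) : 2 ∈ {m | ∃ f : Fin m → (mill k).Subgraph,
    (∀ i, (f i).coe.IsTree) ∧ ∀ e ∈ (mill k).edgeSet, ∃! i, e ∈ (f i).edgeSet} := by
  refine ⟨![SimpleGraph.toSubgraph (spider k) (spider_le k), starSub k], ?_, ?_⟩
  · rw [Fin.forall_fin_two]
    constructor
    · have htree : (spider k).IsTree := isTree none (by
        rintro (_ | ⟨i, _ | _⟩) h
        · exact absurd rfl h
        · simp [mpar]
        · simp [mpar]) rfl
      have iso := SimpleGraph.Subgraph.spanningCoeEquivCoeOfSpanning
        (SimpleGraph.toSubgraph (spider k) (spider_le k))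
        (SimpleGraph.toSubgraph.isSpanning _ _)
      exact iso.isTree_iff.1 htree
    · exact starSub_tree k
  · intro e he
    induction e with
    | h a b =>
      -- membership in the two pieces
      have m0 : s(a, b) ∈ (SimpleGraph.toSubgraph (spider k) (spider_le k)).edgeSet ↔
          (spider k).Adj a b := Iff.rfl
      have m1 : s(a, b) ∈ (starSub k).edgeSet ↔ ((a = none ∧ ∃ i, b = some (i, true)) ∨
          (b = none ∧ ∃ i, a = some (i, true))) := Iff.rfl
      have hadj : (mill k).Adj a b := he
      have hex : ((spider k).Adj a b ∧ ¬ ((a = none ∧ ∃ i, b = some (i, true)) ∨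
          (b = none ∧ ∃ i, a = some (i, true)))) ∨ (¬ (spider k).Adj a b ∧
          ((a = none ∧ ∃ i, b = some (i, true)) ∨ (b = none ∧ ∃ i, a = some (i, true)))) := by
        rcases a with _ | ⟨i, _ | _⟩ <;> rcases b with _ | ⟨j, _ | _⟩
        · exact absurd rfl hadj.ne
        · left
          refine ⟨Or.inr rfl, ?_⟩
          simp
        · right
          refine ⟨?_, ?_⟩
          · rintro (h | h) <;> simp [mpar] at h
          · simp
        · left
          refine ⟨Or.inl rfl, ?_⟩
          simp
        · exact absurd rfl hadj.2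
        · left
          have hij : i = j := hadj.1
          subst hij
          refine ⟨Or.inr rfl, ?_⟩
          simp
        · right
          refine ⟨?_, ?_⟩
          · rintro (h | h) <;> simp [mpar] at h
          · simp
        · left
          have hij : i = j := hadj.1
          subst hij
          refine ⟨Or.inl rfl, ?_⟩
          simp
        · exact absurd rfl hadj.2
      rcases hex with ⟨h1, h2⟩ | ⟨h1, h2⟩
      · refine ⟨0, h1, ?_⟩
        intro i hi
        have h01 : i = 0 ∨ i = 1 := by omega
        rcases h01 with h | h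
        · exact h
        · rw [h] at hi
          exact absurd hi h2
      · refine ⟨1, h2, ?_⟩
        intro i hi
        have h01 : i = 0 ∨ i = 1 := by omega
        rcases h01 with h | h
        · rw [h] at hi
          exact absurd hi h1
        · exact h

end Windmill

theorem bdd (n : ℕ) : BddAbove {r : ℝ | ∃ (V : Type) (_ : Fintype V) (G : SimpleGraph V),
    Fintype.card V = n ∧ G.Connected ∧ G.edgeSet.Nonempty ∧
    r = (tauPrime G : ℝ) / ((tau G : ℝ) * (n : ℝ))} := by
  refine ⟨1 / 4 + 1 / (n : ℝ), ?_⟩
  rintro r ⟨V, _, G, hcard, hG, he, rfl⟩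
  have := ratio_le G hG he
  rw [hcard] at this
  exact this

theorem maxRatio_le (n : ℕ) : maxRatio n ≤ 1 / 4 + 1 / (n : ℝ) := by
  apply Real.sSup_le
  · rintro r ⟨V, _, G, hcard, hG, he, rfl⟩
    have := ratio_le G hG he
    rw [hcard] at this
    exact this
  · positivity

theorem maxRatio_nonneg (n : ℕ) : 0 ≤ maxRatio n := by
  apply Real.sSup_nonneg
  rintro r ⟨V, _, G, hcard, hG, he, rfl⟩
  positivity

theorem maxRatio_ge (k : ℕ) (hk : 1 ≤ k) : 1 / 4 ≤ maxRatio (2 * k + 1) := by
  have hcard : Fintype.card (Option (Fin k × Bool)) = 2 * k + 1 := by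
    rw [Fintype.card_option, Fintype.card_prod, Fintype.card_fin, Fintype.card_bool]
    ring
  have he : (mill k).edgeSet.Nonempty :=
    ⟨s(none, some (⟨0, hk⟩, false)), (trivial : (mill k).Adj none (some (⟨0, hk⟩, false)))⟩
  have hmem := le_csSup (bdd (2 * k + 1))
    ⟨Option (Fin k × Bool), inferInstance, mill k, hcard, mill_connected k, he, rfl⟩
  refine le_trans ?_ hmem
  have h1 := mill_tauPrime k
  have h2 : tau (mill k) ≤ 2 := Nat.sInf_le (mill_tau_mem k)
  have h3 : 1 ≤ tau (mill k) := by
    have hm := Nat.sInf_mem ⟨2, mill_tau_mem k⟩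
    change tau (mill k) ∈ _ at hm
    obtain ⟨f, -, hf⟩ := hm
    obtain ⟨e, he⟩ := he
    obtain ⟨i, -, -⟩ := hf e he
    have := i.isLt
    omega
  have h1' : (k : ℝ) + 1 ≤ (tauPrime (mill k) : ℝ) := by exact_mod_cast h1
  have h2' : (tau (mill k) : ℝ) ≤ 2 := by exact_mod_cast h2
  have h3' : (1 : ℝ) ≤ (tau (mill k) : ℝ) := by exact_mod_cast h3
  have hk0 : (0 : ℝ) ≤ (k : ℝ) := Nat.cast_nonneg k
  rw [le_div_iff₀ (by positivity)]
  push_cast
  nlinarith

/-- The constant `c₂` equals `1/4`. -/
theorem result : Filter.limsup maxRatio Filter.atTop = 1 / 4 := by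
  have hbdd : Filter.IsBoundedUnder (· ≤ ·) Filter.atTop maxRatio := by
    refine ⟨1 / 4 + 1, ?_⟩
    rw [Filter.eventually_map]
    filter_upwards [Filter.eventually_ge_atTop 1] with n hn
    refine (maxRatio_le n).trans ?_
    have h1 : (1 : ℝ) ≤ (n : ℝ) := by exact_mod_cast hn
    have h2 : 1 / (n : ℝ) ≤ 1 := by
      rw [div_le_one (by linarith)]
      exact h1
    linarith
  have htend : Filter.Tendsto (fun n : ℕ => (1 / 4 : ℝ) + 1 / (n : ℝ)) Filter.atTop
      (nhds (1 / 4 + 0)) :=
    tendsto_const_nhds.add tendsto_one_div_atTop_nhds_zero_nat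
  apply le_antisymm
  · have h1 : Filter.limsup maxRatio Filter.atTop ≤
        Filter.limsup (fun n : ℕ => (1 / 4 : ℝ) + 1 / (n : ℝ)) Filter.atTop := by
      apply Filter.limsup_le_limsup
      · exact Filter.Eventually.of_forall maxRatio_le
      · exact Filter.IsBoundedUnder.isCoboundedUnder_le
          ⟨0, Filter.eventually_map.2 (Filter.Eventually.of_forall maxRatio_nonneg)⟩
      · exact htend.isBoundedUnder_le
    rw [htend.limsup_eq] at h1
    linarith
  · apply Filter.le_limsup_of_frequently_le _ hbdd
    rw [Filter.frequently_atTop]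
    intro N
    refine ⟨2 * (N + 1) + 1, by omega, maxRatio_ge (N + 1) (by omega)⟩

end Pool.Agent.Results.MP_8bd6c4_co.SecondRatio
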